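import Pool.Agent.Helper85.Burn.Defs

/-!
Module BASE of the graded Burnside project: the free group satisfies the induction hypothesis.
-/

set_option autoImplicit false

namespace Pool.Agent.Helper5.Burn

open Pool.Agent.Helper85.Burn
open FreeGroup hiding norm norm_one norm_eq_zero IsReduced

/-! ### Longest common initial part -/

section lcp
variable {β : Type} [DecidableEq β]

/-- length of the longest common initial part -/
def lcp : List β → List β → ℕ
  | a :: l, b :: m => if a = b then lcp l m + 1 else 0
  | [], _ => 0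
  | _ :: _, [] => 0

lemma lcp_nil_left (l : List β) : lcp [] l = 0 := by cases l <;> rfl

lemma lcp_nil_right (l : List β) : lcp l [] = 0 := by cases l <;> rfl

lemma lcp_comm : ∀ l m : List β, lcp l m = lcp m l
  | [], m => by rw [lcp_nil_left, lcp_nil_right]
  | a :: l, [] => by rw [lcp_nil_left, lcp_nil_right]
  | a :: l, b :: m => by
    simp only [lcp]
    rw [lcp_comm l m]
    by_cases h : a = b
    · simp [h]
    · have h' : ¬ b = a := fun h' => h h'.symm
      simp [h, h']

lemma lcp_ultra : ∀ l m k : List β, min (lcp l m) (lcp m k) ≤ lcp l k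
  | [], m, k => by simp [lcp_nil_left]
  | a :: l, [], k => by simp [lcp_nil_left, lcp_nil_right]
  | a :: l, b :: m, [] => by simp [lcp_nil_right]
  | a :: l, b :: m, c :: k => by
    simp only [lcp]
    by_cases h : a = b
    · subst h
      by_cases h2 : a = c
      · subst h2
        simp only [if_true]
        have := lcp_ultra l m k
        omega
      · simp [h2]
    · simp [h]

lemma lcp_le_left : ∀ l m : List β, lcp l m ≤ l.length
  | [], m => by simp [lcp_nil_left]
  | a :: l, [] => by simp [lcp_nil_right]
  | a :: l, b :: m => by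
    simp only [lcp]
    split_ifs
    · have := lcp_le_left l m
      simp only [List.length_cons]
      omega
    · simp

end lcp

variable {α : Type} [DecidableEq α]

/-- distance of two reduced words -/
lemma norm_mk_inv_mul_mk : ∀ l m : List (α × Bool), FreeGroup.IsReduced l → FreeGroup.IsReduced m →
    ((mk l)⁻¹ * mk m : FreeGroup α).norm + 2 * lcp l m = l.length + m.length
  | [], m, _, hm => by
    have h1 : ((mk [])⁻¹ * mk m : FreeGroup α) = mk m := by
      rw [← one_eq_mk, inv_one, one_mul]
    rw [h1, lcp_nil_left, FreeGroup.norm, toWord_mk, hm.reduce_eq]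
    simp
  | a :: l, [], hl, _ => by
    have h1 : ((mk (a :: l))⁻¹ * mk [] : FreeGroup α) = (mk (a :: l))⁻¹ := by
      rw [← one_eq_mk, mul_one]
    rw [h1, lcp_nil_right, norm_inv_eq, FreeGroup.norm, toWord_mk, hl.reduce_eq]
    simp
  | a :: l, b :: m, hl, hm => by
    by_cases hab : a = b
    · subst hab
      have h1 : ((mk (a :: l))⁻¹ * mk (a :: m) : FreeGroup α) = (mk l)⁻¹ * mk m := by
        have e1 : (mk (a :: l) : FreeGroup α) = mk [a] * mk l := by rw [mul_mk]; rfl
        have e2 : (mk (a :: m) : FreeGroup α) = mk [a] * mk m := by rw [mul_mk]; rfl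
        rw [e1, e2]
        group
      have hl' : FreeGroup.IsReduced l := List.IsChain.tail hl
      have hm' : FreeGroup.IsReduced m := List.IsChain.tail hm
      have := norm_mk_inv_mul_mk l m hl' hm'
      rw [h1]
      simp only [lcp, if_true, List.length_cons]
      omega
    · have h1 : ((mk (a :: l))⁻¹ * mk (b :: m) : FreeGroup α) =
          mk (invRev (a :: l) ++ (b :: m)) := by
        rw [inv_mk, mul_mk]
      have h2 : FreeGroup.IsReduced (invRev (a :: l) ++ (b :: m)) := by
        have h3 : FreeGroup.IsReduced (invRev (a :: l)) := by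
          rw [isReduced_iff_reduce_eq, reduce_invRev, hl.reduce_eq]
        unfold FreeGroup.IsReduced at h3 hm ⊢
        rw [List.isChain_append]
        refine ⟨h3, hm, ?_⟩
        intro x hx y hy
        simp only [invRev, List.map_cons, List.reverse_cons, List.getLast?_append,
          List.getLast?_singleton, Option.some_or, Option.mem_def, Option.some.injEq] at hx
        simp only [List.head?_cons, Option.mem_def, Option.some.injEq] at hy
        subst hx
        subst hy
        intro h4
        simp only at h4 ⊢
        by_contra h5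
        apply hab
        ext
        · exact h4
        · revert h5
          cases a.2 <;> cases b.2 <;> simp
      rw [h1, FreeGroup.norm, toWord_mk, h2.reduce_eq]
      simp only [lcp, hab, if_false, List.length_append, invRev_length]
      omega

/-- The word metric of the free group. -/
def wm (α : Type) [DecidableEq α] : GMet (FreeGroup α) where
  d x y := (x⁻¹ * y).norm
  self x := by simp
  eq_of x y h := by
    rw [FreeGroup.norm_eq_zero] at h
    exact (inv_mul_eq_one.mp h)
  symm x y := by
    rw [← norm_inv_eq]
    congr 1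
    group
  tri x y z := by
    have h : x⁻¹ * z = (x⁻¹ * y) * (y⁻¹ * z) := by group
    rw [h]
    exact norm_mul_le _ _
  geod x y i hi := by
    have hr : FreeGroup.IsReduced (x⁻¹ * y).toWord := isReduced_toWord
    have hred_take : FreeGroup.IsReduced ((x⁻¹ * y).toWord.take i) := List.IsChain.take hr i
    have hred_drop : FreeGroup.IsReduced ((x⁻¹ * y).toWord.drop i) := List.IsChain.drop hr i
    have hsplit : (x⁻¹ * y) = mk ((x⁻¹ * y).toWord.take i) * mk ((x⁻¹ * y).toWord.drop i) := by
      rw [mul_mk, List.take_append_drop, mk_toWord]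
    have hi' : i ≤ (x⁻¹ * y).toWord.length := hi
    refine ⟨x * mk ((x⁻¹ * y).toWord.take i), ?_, ?_⟩
    · rw [inv_mul_cancel_left, FreeGroup.norm, toWord_mk,
        hred_take.reduce_eq, List.length_take]
      omega
    · have h1 : (x * mk ((x⁻¹ * y).toWord.take i))⁻¹ * y = mk ((x⁻¹ * y).toWord.drop i) := by
        have h2 : (x * mk ((x⁻¹ * y).toWord.take i))⁻¹ * y =
            (mk ((x⁻¹ * y).toWord.take i))⁻¹ * (x⁻¹ * y) := by group
        rw [h2, inv_mul_eq_iff_eq_mul]
        exact hsplit
      rw [h1, FreeGroup.norm, toWord_mk, hred_drop.reduce_eq,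
        List.length_drop]
      rfl

lemma wm_d (x y : FreeGroup α) : (wm α).d x y = (x⁻¹ * y).norm := rfl

lemma wm_isom : (wm α).Isom (FreeGroup α) := by
  intro g x y
  rw [wm_d, wm_d]
  congr 1
  simp only [smul_eq_mul]
  group

lemma wm_d_lcp (x y : FreeGroup α) :
    (wm α).d x y + 2 * lcp x.toWord y.toWord = x.norm + y.norm := by
  have := norm_mk_inv_mul_mk x.toWord y.toWord isReduced_toWord isReduced_toWord
  rwa [mk_toWord, mk_toWord] at this

lemma wm_hyp0 : (wm α).Hyp4 0 := by
  intro x y z w
  have hx := wm_isom (α := α) w⁻¹ x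
  have key : ∀ x y z : FreeGroup α, (wm α).d x y + (wm α).d z 1 ≤
      max ((wm α).d x z + (wm α).d y 1) ((wm α).d x 1 + (wm α).d y z) := by
    intro x y z
    have h1 := wm_d_lcp x y
    have h2 := wm_d_lcp x z
    have h3 := wm_d_lcp y z
    have h4 := lcp_ultra x.toWord z.toWord y.toWord
    have h5 := lcp_comm z.toWord y.toWord
    have e : ∀ x : FreeGroup α, (wm α).d x 1 = x.norm := by
      intro x
      rw [wm_d, mul_one, norm_inv_eq]
    rw [e, e, e]
    omega
  have h := key (w⁻¹ • x) (w⁻¹ • y) (w⁻¹ • z)
  have e : (1 : FreeGroup α) = w⁻¹ • w := by simp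
  rw [e] at h
  simp only [wm_isom w⁻¹] at h
  simpa using h

lemma norm_pow_ge {h : FreeGroup α} (hh : h ≠ 1) (m : ℕ) : m ≤ (h ^ m).norm := by
  rw [FreeGroup.norm, toWord_pow, reduceCyclically.reduce_flatten_replicate isReduced_toWord]
  split_ifs with h0
  · omega
  · have h1 : reduceCyclically.conjugator h.toWord ++ reduceCyclically h.toWord ++
      invRev (reduceCyclically.conjugator h.toWord) = h.toWord :=
        reduceCyclically.conj_conjugator_reduceCyclically _
    have h2 : reduceCyclically h.toWord ≠ [] := by
      intro h3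
      rw [h3] at h1
      apply hh
      rw [← mk_toWord (x := h), ← h1]
      rw [← mul_mk, ← mul_mk, ← inv_mk, ← one_eq_mk]
      group
    have h3 : 1 ≤ (reduceCyclically h.toWord).length := List.length_pos_iff.mpr h2
    simp only [List.length_append, List.length_flatten, List.map_replicate, List.sum_replicate,
      smul_eq_mul]
    nlinarith

omit [DecidableEq α] in
/-- a commutative subgroup of a free group is cyclic -/
lemma cyclic_of_comm (H : Subgroup (FreeGroup α)) (hc : ∀ a ∈ H, ∀ b ∈ H, a * b = b * a) :
    ∃ b ∈ H, ∀ g ∈ H, g ∈ Subgroup.zpowers b := by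
  classical
  have : IsFreeGroup H := inferInstance
  let e : H ≃* FreeGroup (IsFreeGroup.Generators H) := IsFreeGroup.toFreeGroup H
  have hs : ∀ a b : IsFreeGroup.Generators H, a = b := by
    intro a b
    by_contra hab
    have h1 : (of a * of b : FreeGroup (IsFreeGroup.Generators H)) = of b * of a := by
      have h2 := hc _ (e.symm (of a)).2 _ (e.symm (of b)).2
      have h3 : e.symm (of a) * e.symm (of b) = e.symm (of b) * e.symm (of a) := by
        ext
        exact h2
      have h4 := congrArg e h3
      simpa using h4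
    have h2 := congrArg toWord h1
    rw [toWord_mul, toWord_mul, toWord_of, toWord_of] at h2
    simp [reduce, hab] at h2
  rcases isEmpty_or_nonempty (IsFreeGroup.Generators H) with he | ⟨⟨a⟩⟩
  · refine ⟨1, H.one_mem, fun g hg => ?_⟩
    have h1 : e ⟨g, hg⟩ = 1 := Subsingleton.elim _ _
    have h2 : (⟨g, hg⟩ : H) = 1 := by
      apply e.injective
      rw [h1]
      exact (_root_.map_one e).symm
    have h3 : g = 1 := congrArg Subtype.val h2
    rw [h3]
    exact Subgroup.one_mem _
  · refine ⟨(e.symm (of a) : H), (e.symm (of a)).2, fun g hg => ?_⟩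
    have h1 : ∀ x : FreeGroup (IsFreeGroup.Generators H), x ∈ Subgroup.zpowers (of a) := by
      intro x
      induction x using FreeGroup.induction_on with
      | C1 => exact Subgroup.one_mem _
      | of i =>
        rw [hs i a]
        exact Subgroup.mem_zpowers _
      | inv_of i hi => exact Subgroup.inv_mem _ hi
      | mul x y hx hy => exact Subgroup.mul_mem _ hx hy
    obtain ⟨k, hk⟩ := Subgroup.mem_zpowers_iff.mp (h1 (e ⟨g, hg⟩))
    refine Subgroup.mem_zpowers_iff.mpr ⟨k, ?_⟩
    have h2 : (e.symm (of a)) ^ k = (⟨g, hg⟩ : H) := by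
      apply e.injective
      rw [map_zpow, e.apply_symm_apply, hk]
    have h3 := congrArg Subtype.val h2
    simpa using h3

section tree
variable {G V : Type} [Group G] [MulAction G V] {M : GMet V}

/-- in a tree an isometry with small displacement at the ends shifts the middle of a geodesic -/
lemma tree_shift (hM : M.Hyp4 0) (hG : M.Isom G) {x y u : V} {g : G} {T : ℕ}
    (hx : M.d x (g • x) ≤ T) (hy : M.d y (g • y) ≤ T) 
    (hu : u ∈ M.I x y) (hxu : T < M.d x u) (huy : T < M.d u y) :
    g • u ∈ M.I x y ∧ M.d x (g • u) + M.d x y = M.d x u + M.d x (g • y) := by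
  have hu' : M.d x u + M.d u y = M.d x y := hu
  have e1 := hG g x y
  have e2 := hG g x u
  have e3 := hG g u y
  have a1 := hM (g • x) (g • y) (g • u) x
  have a2 := hM (g • x) (g • y) (g • u) y
  have a3 := hM x (g • y) y (g • x)
  have s1 := M.symm (g • x) x
  have s2 := M.symm (g • y) x
  have s3 := M.symm (g • u) x
  have s4 := M.symm (g • x) y
  have s5 := M.symm (g • y) y
  have s6 := M.symm (g • u) y
  have s7 := M.symm (g • y) (g • u)
  have s8 := M.symm (g • y) (g • x)
  have s9 := M.symm y (g • x)
  have t1 := M.tri x (g • u) y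
  have t2 := M.tri x (g • x) (g • u)
  have t3 := M.tri x (g • u) (g • y)
  show M.d x (g • u) + M.d (g • u) y = M.d x y ∧ _
  simp only [mul_zero, add_zero] at a1 a2 a3
  rw [e1, e2, s7, e3] at a1 a2
  rw [e1] at s8
  have t4 := M.tri (g • x) (g • u) y
  have t5 := M.tri x y (g • y)
  have t6 := M.tri x (g • x) y
  have t7 := M.tri (g • x) x y
  constructor <;> omega

end tree

theorem base (p : Par) : Hyp p (FreeGroup α) (FreeGroup α) (wm α) where
  ne := ⟨1⟩
  isom := wm_isom
  hyp := by
    intro x y z w
    have := wm_hyp0 (α := α) x y z w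
    omega
  dich := by
    intro g
    by_cases hg : g = 1
    · left
      exact ⟨1, odd_one, by simp [hg]⟩
    · right
      intro x m
      have h1 : (wm α).d x (g ^ m • x) = ((x⁻¹ * g * x) ^ m).norm := by
        rw [wm_d]
        congr 1
        have : x⁻¹ * g * x = x⁻¹ * g * (x⁻¹)⁻¹ := by group
        rw [this, conj_pow, smul_eq_mul]
        group
      have h2 : x⁻¹ * g * x ≠ 1 := by
        intro h3
        apply hg
        have h4 : g = x * (x⁻¹ * g * x) * x⁻¹ := by group
        rw [h4, h3]
        group
      have h3 := norm_pow_ge h2 m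
      rw [h1]
      have hq := p.hq
      have : 1 ≤ p.q := by omega
      nlinarith
  cyc := by
    intro x y hxy
    have hκΔ : 100 * p.κ ≤ p.Δ := by
      have h1 := p.hΔ
      have h2 := p.hκ
      have h3 := p.hδ
      have h4 := p.hq
      have h5 : 100 ≤ p.κ := by
        calc 100 ≤ 10 ^ 20 * 1 * 1 := by norm_num
          _ ≤ 10 ^ 20 * p.δ ^ 2 * p.q := by
            apply Nat.mul_le_mul
            · apply Nat.mul_le_mul le_rfl
              exact Nat.one_le_pow _ _ (by omega)
            · omega
          _ ≤ p.κ := h2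
      calc 100 * p.κ ≤ p.κ * p.κ := Nat.mul_le_mul h5 le_rfl
        _ = p.κ ^ 2 := by ring
        _ ≤ p.κ ^ 5 := Nat.pow_le_pow_right (by omega) (by omega)
        _ ≤ p.Δ := h1
    have hκ1 : 1 ≤ p.κ := by
      have h2 := p.hκ
      have h3 := p.hδ
      have h4 := p.hq
      calc 1 ≤ 10 ^ 20 * 1 * 1 := by norm_num
          _ ≤ 10 ^ 20 * p.δ ^ 2 * p.q := by
            apply Nat.mul_le_mul
            · apply Nat.mul_le_mul le_rfl
              exact Nat.one_le_pow _ _ (by omega)
            · omega
          _ ≤ p.κ := h2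
    obtain ⟨u, hu1, hu2⟩ := (wm α).geod x y (p.κ * 10) (by omega)
    let S : Set (FreeGroup α) := {g | (wm α).d x (g • x) ≤ p.κ ∧ (wm α).d y (g • y) ≤ p.κ}
    have hcomm : ∀ g ∈ S, ∀ h ∈ S, g * h = h * g := by
      rintro g ⟨hg1, hg2⟩ h ⟨hh1, hh2⟩
      have hu : u ∈ (wm α).I x y := by
        show (wm α).d x u + (wm α).d u y = (wm α).d x y
        omega
      have ts := fun (g : FreeGroup α) (h1 : (wm α).d x (g • x) ≤ p.κ)
        (h2 : (wm α).d y (g • y) ≤ p.κ) (u : FreeGroup α) =>
        tree_shift (M := wm α) wm_hyp0 wm_isom (x := x) (y := y) (u := u) h1 h2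
      have bd : ∀ g : FreeGroup α, (wm α).d y (g • y) ≤ p.κ →
          (wm α).d x (g • y) ≤ (wm α).d x y + p.κ ∧
          (wm α).d x y ≤ (wm α).d x (g • y) + p.κ := by
        intro g h2
        have t1 := (wm α).tri x y (g • y)
        have t2 := (wm α).tri x (g • y) y
        have s1 := (wm α).symm (g • y) y
        omega
      have b1 := bd g hg2
      have b2 := bd h hh2
      obtain ⟨c1, c2⟩ := ts g hg1 hg2 u hu (by omega) (by omega)
      obtain ⟨c3, c4⟩ := ts h hh1 hh2 u hu (by omega) (by omega)
      have c1' : (wm α).d x (g • u) + (wm α).d (g • u) y = (wm α).d x y := c1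
      have c3' : (wm α).d x (h • u) + (wm α).d (h • u) y = (wm α).d x y := c3
      obtain ⟨c5, c6⟩ := ts h hh1 hh2 (g • u) c1 (by omega) (by omega)
      obtain ⟨c7, c8⟩ := ts g hg1 hg2 (h • u) c3 (by omega) (by omega)
      have c5' : (wm α).d x (h • g • u) + (wm α).d (h • g • u) y = (wm α).d x y := c5
      have c7' : (wm α).d x (g • h • u) + (wm α).d (g • h • u) y = (wm α).d x y := c7
      have e1 : h • g • u = g • h • u := by
        apply (wm α).eq_of
        have := wm_hyp0 (α := α) x y (h • g • u) (g • h • u)
        have s1 := (wm α).symm y (g • h • u)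
        have s2 := (wm α).symm y (h • g • u)
        omega
      simp only [smul_eq_mul, ← mul_assoc] at e1
      exact (mul_right_cancel e1).symm
    have hH : ∀ a ∈ Subgroup.closure S, ∀ b ∈ Subgroup.closure S, a * b = b * a := by
      intro a ha b hb
      have hS : S.Pairwise Commute := by
        intro a ha b hb _
        exact hcomm a ha b hb
      have h1 : Subgroup.closure S ≤ Subgroup.centralizer S := by
        rw [Subgroup.closure_le]
        intro a ha
        rw [SetLike.mem_coe, Subgroup.mem_centralizer_iff]
        intro b hb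
        exact hcomm b hb a ha
      have h2 : Subgroup.closure S ≤ Subgroup.centralizer (Subgroup.closure S) := by
        rw [Subgroup.closure_le]
        intro a ha
        rw [SetLike.mem_coe, Subgroup.mem_centralizer_iff]
        intro b hb
        have h3 := h1 hb
        rw [Subgroup.mem_centralizer_iff] at h3
        exact (h3 a ha).symm
      have h3 := h2 ha
      rw [Subgroup.mem_centralizer_iff] at h3
      exact (h3 b hb).symm
    obtain ⟨b, _, hb⟩ := cyclic_of_comm _ hH
    refine ⟨b, ?_, fun g h1 h2 => hb g (Subgroup.subset_closure ⟨h1, h2⟩)⟩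
    by_cases hb1 : b = 1
    · left
      exact hb1
    · right
      intro m hm h1
      have := norm_pow_ge hb1 m
      rw [h1, FreeGroup.norm_one] at this
      omega

end Pool.Agent.Helper5.Burn
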