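import Mathlib

/-!
Module FINAL of the graded Burnside project: from a tower of normal subgroups of a group to a
quotient of an ultrapower which is an unbounded torsion group without nontrivial divisible subgroups.
-/

set_option autoImplicit false

namespace Pool.Agent.Helper5.Burn

/-- The normal subgroup of the sequences which are trivial almost everywhere. -/
def nullSeq (G : ℕ → Type) [∀ i, Group (G i)] (U : Ultrafilter ℕ) : Subgroup (∀ i, G i) where
  carrier := {x | ∀ᶠ i in (U : Filter ℕ), x i = 1}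
  one_mem' := by simp
  mul_mem' := by
    intro a b ha hb
    simp only [Set.mem_ofPred_eq] at *
    filter_upwards [ha, hb] with i h1 h2
    simp [h1, h2]
  inv_mem' := by
    intro a ha
    simp only [Set.mem_ofPred_eq] at *
    filter_upwards [ha] with i h1
    simp [h1]

instance nullSeq_normal (G : ℕ → Type) [∀ i, Group (G i)] (U : Ultrafilter ℕ) :
    (nullSeq G U).Normal where
  conj_mem := by
    intro a ha g
    have ha' : ∀ᶠ i in (U : Filter ℕ), a i = 1 := ha
    show ∀ᶠ i in (U : Filter ℕ), (g * a * g⁻¹) i = 1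
    filter_upwards [ha'] with i h1
    simp [h1]

/-- The ultraproduct of the groups `G i`. -/
abbrev Ultraprod (G : ℕ → Type) [∀ i, Group (G i)] (U : Ultrafilter ℕ) : Type :=
  (∀ i, G i) ⧸ nullSeq G U

/-- `H` is a ui-group: a homomorphic image of an ultraproduct of a sequence of groups with respect to
a nonprincipal ultrafilter on `ℕ`. -/
def IsUiGroup (H : Type) [Group H] : Prop :=
  ∃ (G : ℕ → Type) (_ : ∀ i, Group (G i)) (U : Ultrafilter ℕ), (∀ n : ℕ, U ≠ pure n) ∧
    ∃ f : Ultraprod G U →* H, Function.Surjective f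

/-- The negated form of Q1. -/
def NegQ1 : Prop :=
  ∃ (H : Type) (_ : Group H), IsUiGroup H ∧
    (∀ h : H, ∃ n : ℕ, 1 ≤ n ∧ h ^ n = 1) ∧
    (¬ ∃ n : ℕ, 1 ≤ n ∧ ∀ h : H, h ^ n = 1) ∧
    ∀ D : Subgroup H, (∀ d ∈ D, ∀ n : ℕ, 1 ≤ n → ∃ x ∈ D, x ^ n = d) → D = ⊥

/-- A homomorphic image of the ultrapower of `F` with respect to `U` is a torsion group of unbounded
exponent whose only divisible subgroup is trivial. -/
def Img (F : Type) [Group F] (U : Ultrafilter ℕ) : Prop :=
  ∃ (H : Type) (_ : Group H),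
    (∃ f : Ultraprod (fun _ => F) U →* H, Function.Surjective f) ∧
    (∀ h : H, ∃ n : ℕ, 1 ≤ n ∧ h ^ n = 1) ∧
    (¬ ∃ n : ℕ, 1 ≤ n ∧ ∀ h : H, h ^ n = 1) ∧
    ∀ D : Subgroup H, (∀ d ∈ D, ∀ n : ℕ, 1 ≤ n → ∃ x ∈ D, x ^ n = d) → D = ⊥

variable {F : Type} [Group F]

/-- sequences which are in every `K L` almost everywhere -/
def NN (K : ℕ → Subgroup F) (U : Ultrafilter ℕ) : Subgroup (ℕ → F) where
  carrier := {x | ∀ L, ∀ᶠ i in (U : Filter ℕ), x i ∈ K L}
  one_mem' := by
    intro L
    exact Filter.Eventually.of_forall fun i => (K L).one_mem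
  mul_mem' := by
    intro a b ha hb L
    filter_upwards [ha L, hb L] with i h1 h2
    exact (K L).mul_mem h1 h2
  inv_mem' := by
    intro a ha L
    filter_upwards [ha L] with i h1
    exact (K L).inv_mem h1

lemma NN_normal (K : ℕ → Subgroup F) (hn : ∀ L, (K L).Normal) (U : Ultrafilter ℕ) :
    (NN K U).Normal where
  conj_mem := by
    intro a ha g L
    have := ha L
    filter_upwards [this] with i h1
    exact (hn L).conj_mem _ h1 _

lemma exists_nonprincipal : ∃ U : Ultrafilter ℕ, ∀ n : ℕ, U ≠ pure n := by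
  refine ⟨Filter.hyperfilter ℕ, fun n h => ?_⟩
  have h1 : ({n} : Set ℕ) ∈ (Filter.hyperfilter ℕ) := by
    rw [h]
    exact Set.mem_singleton n
  exact (Set.finite_singleton n).notMem_hyperfilter h1

/-- **Final step.**  From a sequence of normal subgroups `N L` and exponents `e L` such that every
element outside of `N L` has its `e L`-th power in all `N L'`, and such that the quotients have
unbounded exponents, to a counterexample to Q1. -/
theorem final (N : ℕ → Subgroup F) (hn : ∀ L, (N L).Normal) (e : ℕ → ℕ) (he : ∀ L, 1 ≤ e L)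
    (h1 : ∀ L x, x ∉ N L → ∀ L', x ^ e L ∈ N L')
    (h4 : ∀ m : ℕ, 1 ≤ m → ∃ g L, g ^ m ∉ N L) (U : Ultrafilter ℕ) : Img F U := by
  have := NN_normal N hn U
  -- the exponents of the quotients
  have h3 : ∀ L (g : F), g ^ e L ∈ N L := by
    intro L g
    by_cases h : g ∈ N L
    · exact (N L).pow_mem h _
    · exact h1 L g h L
  refine ⟨(ℕ → F) ⧸ NN N U, inferInstance, ?_, ?_, ?_, ?_⟩
  · refine ⟨QuotientGroup.map _ _ (MonoidHom.id _) ?_, ?_⟩
    · intro x hx L
      have hx' : ∀ᶠ i in (U : Filter ℕ), x i = 1 := hx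
      filter_upwards [hx'] with i hi
      simp only [MonoidHom.id_apply]
      rw [hi]
      exact (N L).one_mem
    · intro y
      obtain ⟨x, rfl⟩ := QuotientGroup.mk_surjective y
      exact ⟨QuotientGroup.mk x, rfl⟩
  · intro h
    obtain ⟨x, rfl⟩ := QuotientGroup.mk_surjective h
    by_cases hA : ∀ L, ∀ᶠ i in (U : Filter ℕ), x i ∈ N L
    · refine ⟨1, le_rfl, ?_⟩
      rw [pow_one, QuotientGroup.eq_one_iff]
      exact hA
    · push Not at hA
      obtain ⟨L, hL⟩ := hA
      refine ⟨e L, he L, ?_⟩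
      rw [← QuotientGroup.mk_pow, QuotientGroup.eq_one_iff]
      intro L'
      have hL' : ∀ᶠ i in (U : Filter ℕ), x i ∉ N L := hL
      filter_upwards [hL'] with i hi
      exact h1 L (x i) hi L'
  · rintro ⟨m, hm, hall⟩
    obtain ⟨g, L, hg⟩ := h4 m hm
    have := hall (QuotientGroup.mk fun _ => g)
    rw [← QuotientGroup.mk_pow, QuotientGroup.eq_one_iff] at this
    have h5 := this L
    obtain ⟨i, hi⟩ := h5.exists
    exact hg hi
  · intro D hD
    rw [eq_bot_iff]
    intro d hd
    rw [Subgroup.mem_bot]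
    obtain ⟨x, rfl⟩ := QuotientGroup.mk_surjective d
    rw [QuotientGroup.eq_one_iff]
    intro L
    obtain ⟨z, hz, hze⟩ := hD _ hd (e L) (he L)
    obtain ⟨y, rfl⟩ := QuotientGroup.mk_surjective z
    rw [← QuotientGroup.mk_pow, QuotientGroup.eq] at hze
    have h5 := hze L
    filter_upwards [h5] with i hi
    have h6 : ((y ^ e L) i)⁻¹ * x i ∈ N L := hi
    have h7 : (y i) ^ e L ∈ N L := h3 L (y i)
    have h8 := (N L).mul_mem h7 h6
    simpa using h8

/-- from one nonprincipal ultrafilter to the negated form of Q1 -/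
theorem Img.negQ1 (h : ∀ U : Ultrafilter ℕ, (∀ n : ℕ, U ≠ pure n) → Img F U) : NegQ1 := by
  obtain ⟨U, hU⟩ := exists_nonprincipal
  obtain ⟨H, gH, ⟨f, hf⟩, h2⟩ := h U hU
  exact ⟨H, gH, ⟨fun _ => F, fun _ => inferInstance, U, hU, f, hf⟩, h2⟩

end Pool.Agent.Helper5.Burn
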