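import Pool.Agent.Helper5.Burn.Final

/-!
Module LEVELS of the graded Burnside project (helper88's version).  Pure group theory: from the
limit theorem for the free group of countable rank to the sequence of normal subgroups of module
FINAL.
-/

set_option autoImplicit false

namespace Pool.Agent.Helper5.Burn

/-- Exponent data: the element `x` gets the exponent `ell x`. -/
structure ExpData {F : Type} [Group F] (B : ℕ) (N : Subgroup F) (ell : F → ℕ) : Prop where
  normal : N.Normal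
  inv : ∀ x k, k ∈ N → ell (x * k) = ell x
  conj : ∀ x g, ell (g * x * g⁻¹) = ell x
  odd : ∀ x, Odd (ell x)
  big : ∀ x, B ≤ ell x
  dvd : ∀ (y : F) (s : ℤ), ell y ∣ ell (y ^ s)
  kill : ∀ x, x ^ ell x ∈ N

/-- The statement of the limit theorem. -/
def LT (B : ℕ) : Prop := ∀ (N : Subgroup (FreeGroup ℕ)) (ell : FreeGroup ℕ → ℕ), ExpData B N ell →
  ∃ N' : Subgroup (FreeGroup ℕ), N'.Normal ∧ N' ≤ N ∧ (∀ x, x ^ ell x ∈ N') ∧
    ∀ (j i : ℕ), (FreeGroup.of j) ^ i ∈ N' → ell (FreeGroup.of j) ∣ i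

/-- the endomorphism which kills the generators `a j`, `j ≥ L` -/
def eps (L : ℕ) : FreeGroup ℕ →* FreeGroup ℕ :=
  FreeGroup.lift fun j => if j < L then FreeGroup.of j else 1

lemma eps_of_lt {L j : ℕ} (h : j < L) : eps L (FreeGroup.of j) = FreeGroup.of j := by
  simp [eps, h]

lemma eps_of_ge {L j : ℕ} (h : L ≤ j) : eps L (FreeGroup.of j) = 1 := by
  simp [eps, not_lt.mpr h]

lemma eps_eps (L : ℕ) (x : FreeGroup ℕ) : eps L (eps (L + 1) x) = eps L x := by
  have h : (eps L).comp (eps (L + 1)) = eps L := by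
    ext j
    simp only [MonoidHom.comp_apply]
    rcases Nat.lt_or_ge j (L + 1) with h | h
    · rw [eps_of_lt h]
    · rw [eps_of_ge h, eps_of_ge (by omega), map_one]
  exact DFunLike.congr_fun h x

lemma eps_idem (L : ℕ) (x : FreeGroup ℕ) : eps L (eps L x) = eps L x := by
  have h : (eps L).comp (eps L) = eps L := by
    ext j
    simp only [MonoidHom.comp_apply]
    rcases Nat.lt_or_ge j L with h | h
    · rw [eps_of_lt h, eps_of_lt h]
    · rw [eps_of_ge h, map_one]
  exact DFunLike.congr_fun h x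

/-- State of the construction at level `L`: `T` is `T_{L-1}`. -/
structure Lev (B L : ℕ) where
  T : Subgroup (FreeGroup ℕ)
  ell : FreeGroup ℕ → ℕ
  hE : ExpData B T ell
  /-- the exponent on `T` -/
  hc : ∀ x ∈ T, ell x = (2 * B + 1) * 3 ^ L
  hdvd : ∀ x, ell x ∣ (2 * B + 1) * 3 ^ L
  heps : ∀ x, x⁻¹ * eps (L + 1) x ∈ T
  hgen : FreeGroup.of L ∈ T

/-- Relation between one level and the next one. -/
structure NextLev {B L : ℕ} (A : Lev B L) (A' : Lev B (L + 1)) : Prop where
  le : A'.T ≤ A.T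
  kill : ∀ x, x ^ A.ell x ∈ A'.T
  ord : ∀ i : ℕ, (FreeGroup.of L) ^ i ∈ A'.T → (2 * B + 1) * 3 ^ L ∣ i
  ell : ∀ x, x ∉ A'.T → A'.ell x = A.ell x

theorem next_level {B : ℕ} (hLT : LT B) {L : ℕ} (A : Lev B L) : ∃ A' : Lev B (L + 1), NextLev A A' := by
  classical
  obtain ⟨N', hN', hNN, hkill, hord⟩ := hLT A.T A.ell A.hE
  have hAn := A.hE.normal
  set T' : Subgroup (FreeGroup ℕ) := N'.comap (eps (L + 1)) with hT'
  have mem : ∀ x, x ∈ T' ↔ eps (L + 1) x ∈ N' := fun x => Iff.rfl
  have hle : T' ≤ A.T := by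
    intro x hx
    have h1 := hNN ((mem x).mp hx)
    have h2 := A.heps x
    have h3 : x = eps (L + 1) x * (x⁻¹ * eps (L + 1) x)⁻¹ := by group
    rw [h3]
    exact A.T.mul_mem h1 (A.T.inv_mem h2)
  have hTn : T'.Normal := hN'.comap _
  have hellE : ∀ x, A.ell (eps (L + 1) x) = A.ell x := by
    intro x
    have h := A.hE.inv x _ (A.heps x)
    rwa [mul_inv_cancel_left] at h
  have hkill' : ∀ x, x ^ A.ell x ∈ T' := by
    intro x
    rw [mem, map_pow]
    have := hkill (eps (L + 1) x)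
    rwa [hellE] at this
  let ell' : FreeGroup ℕ → ℕ := fun x => if x ∈ T' then (2 * B + 1) * 3 ^ (L + 1) else A.ell x
  have e1 : ∀ x, x ∉ T' → ell' x = A.ell x := by
    intro x hx
    simp only [ell', hx, if_false]
  have e2 : ∀ x, x ∈ T' → ell' x = (2 * B + 1) * 3 ^ (L + 1) := by
    intro x hx
    simp only [ell', hx, if_true]
  have hcc : (2 * B + 1) * 3 ^ L ∣ (2 * B + 1) * 3 ^ (L + 1) :=
    ⟨3, by rw [pow_succ]; ring⟩
  have hd1 : ∀ x, A.ell x ∣ ell' x := by
    intro x
    by_cases h1 : x ∈ T'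
    · rw [e2 x h1]
      exact (A.hdvd x).trans hcc
    · rw [e1 x h1]
  have hE' : ExpData B T' ell' := by
    refine ⟨hTn, ?_, ?_, ?_, ?_, ?_, ?_⟩
    · intro x k hk
      have i1 : x * k ∈ T' ↔ x ∈ T' := T'.mul_mem_cancel_right hk
      by_cases h1 : x ∈ T'
      · rw [e2 x h1, e2 _ (i1.mpr h1)]
      · rw [e1 x h1, e1 _ (fun h => h1 (i1.mp h)), A.hE.inv x k (hle hk)]
    · intro x g
      have i1 : g * x * g⁻¹ ∈ T' ↔ x ∈ T' := by
        constructor
        · intro h
          have := hTn.conj_mem _ h g⁻¹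
          have e : g⁻¹ * (g * x * g⁻¹) * g⁻¹⁻¹ = x := by group
          rwa [e] at this
        · intro h
          exact hTn.conj_mem _ h g
      by_cases h1 : x ∈ T'
      · rw [e2 x h1, e2 _ (i1.mpr h1)]
      · rw [e1 x h1, e1 _ (fun h => h1 (i1.mp h)), A.hE.conj x g]
    · intro x
      by_cases h1 : x ∈ T'
      · rw [e2 x h1]
        exact Odd.mul ⟨B, rfl⟩ (Odd.pow (by decide))
      · rw [e1 x h1]
        exact A.hE.odd x
    · intro x
      by_cases h1 : x ∈ T'
      · rw [e2 x h1]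
        have : 1 ≤ 3 ^ (L + 1) := Nat.one_le_pow _ _ (by norm_num)
        nlinarith
      · rw [e1 x h1]
        exact A.hE.big x
    · intro y s
      by_cases h1 : y ∈ T'
      · rw [e2 y h1, e2 _ (Subgroup.zpow_mem _ h1 s)]
      · rw [e1 y h1]
        exact (A.hE.dvd y s).trans (hd1 _)
    · intro x
      obtain ⟨t, ht⟩ := hd1 x
      rw [ht, pow_mul]
      exact Subgroup.pow_mem _ (hkill' x) _
  refine ⟨⟨T', ell', hE', e2, ?_, ?_, ?_⟩, ⟨hle, hkill', ?_, e1⟩⟩
  · intro x
    by_cases h1 : x ∈ T'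
    · rw [e2 x h1]
    · rw [e1 x h1]
      exact (A.hdvd x).trans hcc
  · intro x
    rw [mem, map_mul, map_inv, eps_eps, inv_mul_cancel]
    exact N'.one_mem
  · rw [mem, eps_of_ge le_rfl]
    exact N'.one_mem
  · intro i hi
    have h1 : (FreeGroup.of L) ^ i ∈ N' := by
      have h2 := (mem _).mp hi
      rwa [map_pow, eps_of_lt (Nat.lt_succ_self L)] at h2
    have h3 := hord L i h1
    rwa [A.hc _ A.hgen] at h3

/-- **Level construction.** -/
theorem levels {B : ℕ} (hLT : LT B) (U : Ultrafilter ℕ) : Img (FreeGroup ℕ) U := by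
  classical
  let A0 : Lev B 0 := ⟨⊤, fun _ => (2 * B + 1) * 3 ^ 0, ⟨inferInstance, fun _ _ _ => rfl,
    fun _ _ => rfl, fun _ => ⟨B, by ring⟩, fun _ => by
      show B ≤ (2 * B + 1) * 3 ^ 0
      omega, fun _ _ => dvd_rfl, fun _ => Subgroup.mem_top _⟩, fun _ _ => rfl, fun _ => dvd_rfl,
    fun _ => Subgroup.mem_top _, Subgroup.mem_top _⟩
  choose nx hnx using fun (L : ℕ) (A : Lev B L) => next_level hLT A
  let A : (k : ℕ) → Lev B k := fun k => Nat.rec A0 (fun L Y => nx L Y) k
  have hA : ∀ k, NextLev (A k) (A (k + 1)) := fun k => hnx k (A k)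
  have hanti : ∀ j k, j ≤ k → (A k).T ≤ (A j).T := by
    intro j k hjk
    induction k, hjk using Nat.le_induction with
    | base => exact le_rfl
    | succ k _ ih => exact ((hA k).le).trans ih
  refine final (fun L => (A (L + 1)).T) (fun L => (A (L + 1)).hE.normal)
    (fun L => (2 * B + 1) * 3 ^ L) (fun L => ?_) ?_ ?_ U
  · have : 0 < (2 * B + 1) * 3 ^ L := by positivity
    exact this
  · intro L x hx L'
    have hx' : x ∉ (A (L + 1)).T := hx
    -- the exponent of `x` does not change any more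
    have h1 : ∀ k, L + 1 ≤ k → (A k).ell x = (A L).ell x := by
      intro k hk
      induction k, hk using Nat.le_induction with
      | base => exact (hA L).ell x hx'
      | succ k hk ih =>
        rw [(hA k).ell x (fun h => hx' (hanti (L + 1) (k + 1) (by omega) h)), ih]
    have h2 : ∀ k, L + 1 ≤ k → x ^ ((2 * B + 1) * 3 ^ L) ∈ (A (k + 1)).T := by
      intro k hk
      have h3 := (hA k).kill x
      rw [h1 k hk] at h3
      obtain ⟨t, ht⟩ := (A L).hdvd x
      rw [ht, pow_mul]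
      exact Subgroup.pow_mem _ h3 _
    have h3 : x ^ ((2 * B + 1) * 3 ^ L) ∈ (A (L' + 1)).T := by
      rcases le_total (L + 1) L' with h | h
      · exact h2 L' h
      · exact hanti (L' + 1) (L + 1 + 1) (by omega) (h2 (L + 1) le_rfl)
    exact h3
  · intro m hm
    refine ⟨FreeGroup.of m, m, fun h => ?_⟩
    have h1 := (hA m).ord m h
    have h2 := Nat.le_of_dvd (by omega) h1
    have h3 : m < 3 ^ m := Nat.lt_pow_self (by norm_num)
    have h4 : 3 ^ m ≤ (2 * B + 1) * 3 ^ m := Nat.le_mul_of_pos_left _ (by omega)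
    omega

end Pool.Agent.Helper5.Burn
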