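import Pool.Agent.Helper5.Burn.Levels
import Pool.Agent.Helper5.Burn.Base

/-!
Module LIMIT of the graded Burnside project: the objects, the statement of the step theorem, and the
deduction of the limit theorem and of the negated form of Q1 from it.
-/

set_option autoImplicit false

namespace Pool.Agent.Helper5.Burn

open Pool.Agent.Helper85.Burn

/-- An object: a quotient `G` of `F` with an action on a hyperbolic graph which satisfies the
induction hypothesis. -/
structure Obj (p : Par) (F : Type) [Group F] where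
  G : Type
  V : Type
  [grp : Group G]
  [act : MulAction G V]
  M : GMet V
  hyp : Hyp p G V M
  π : F →* G
  surj : Function.Surjective π
  x0 : V

attribute [instance] Obj.grp Obj.act

variable {p : Par} {F : Type} [Group F]

/-- `y` is short and primitive in `X` -/
def Obj.prim (X : Obj p F) (y : F) : Prop :=
  Inf (X.π y) ∧ (∃ x, X.M.d x (X.π y • x) ≤ p.L) ∧
    ∀ b, X.π y ∈ Subgroup.zpowers b → b ∈ Subgroup.zpowers (X.π y)

/-- displacement of the base point -/
def Obj.len (X : Obj p F) (x : F) : ℕ := X.M.d X.x0 (X.π x • X.x0)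

/-- torsion elements of `X` have the right exponent -/
def Obj.TorsOK (X : Obj p F) (ell : F → ℕ) : Prop := ∀ (x : F) (m : ℕ), 0 < m → X.π x ^ m = 1 →
  X.π x ^ ell x = 1

/-- What one step delivers. -/
structure StepP (X X' : Obj p F) (N : Subgroup F) (ell : F → ℕ) : Prop where
  mono : ∀ x, X.π x = 1 → X'.π x = 1
  le : ∀ x, X'.π x = 1 → x ∈ N
  tors : X'.TorsOK ell
  inj : ∀ (x : F) (m : ℕ), 0 < m → X.π x ^ m = 1 → X'.π x = 1 → X.π x = 1
  ord : ∀ y, X.prim y → ∀ m : ℕ, X'.π y ^ m = 1 → ell y ∣ m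
  ord' : ∀ y, X.prim y → X'.π y ^ ell y = 1
  contr : ∀ x, X'.π x ^ ell x = 1 ∨ X'.len x < X.len x

/-- The step theorem. -/
def StepThm (p : Par) (F : Type) [Group F] : Prop :=
  ∀ (X : Obj p F) (N : Subgroup F) (ell : F → ℕ), ExpData (1000 * p.P) N ell →
    (∀ x, X.π x = 1 → x ∈ N) → X.TorsOK ell → ∃ X', StepP X X' N ell

/-- **Limit theorem.** -/
theorem limit (hstep : StepThm p F) {X : Obj p F} {N : Subgroup F} {ell : F → ℕ}
    (hE : ExpData (1000 * p.P) N ell) (hk : ∀ x, X.π x = 1 → x ∈ N) (ht : X.TorsOK ell) :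
    ∃ N' : Subgroup F, N'.Normal ∧ X.π.ker ≤ N' ∧ N' ≤ N ∧ (∀ x, x ^ ell x ∈ N') ∧
      ∀ y, X.prim y → ∀ m : ℕ, y ^ m ∈ N' → ell y ∣ m := by
  classical
  -- the sequence of objects
  let S : Type 1 := {Y : Obj p F // (∀ x, Y.π x = 1 → x ∈ N) ∧ Y.TorsOK ell}
  have hs : ∀ Y : S, ∃ Y' : S, StepP Y.1 Y'.1 N ell := by
    rintro ⟨Y, h1, h2⟩
    obtain ⟨Y', hY'⟩ := hstep Y N ell hE h1 h2
    exact ⟨⟨Y', hY'.le, hY'.tors⟩, hY'⟩
  choose nx hnx using hs
  let Z : ℕ → S := fun k => Nat.rec ⟨X, hk, ht⟩ (fun _ Y => nx Y) k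
  have hZs : ∀ k, StepP (Z k).1 (Z (k + 1)).1 N ell := fun k => hnx (Z k)
  have hmono1 : ∀ k, (Z k).1.π.ker ≤ (Z (k + 1)).1.π.ker := fun k x hx =>
    MonoidHom.mem_ker.mpr ((hZs k).mono x (MonoidHom.mem_ker.mp hx))
  have hmono : Monotone fun k => (Z k).1.π.ker := monotone_nat_of_le_succ hmono1
  have hdir : Directed (· ≤ ·) fun k => (Z k).1.π.ker := hmono.directed_le
  refine ⟨⨆ k, (Z k).1.π.ker, ?_, ?_, ?_, ?_, ?_⟩
  · constructor
    intro n hn g
    rw [Subgroup.mem_iSup_of_directed hdir] at hn ⊢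
    obtain ⟨k, hk⟩ := hn
    exact ⟨k, (MonoidHom.normal_ker _).conj_mem _ hk g⟩
  · exact le_iSup (fun k => (Z k).1.π.ker) 0
  · exact iSup_le fun k x hx => (Z k).2.1 x (MonoidHom.mem_ker.mp hx)
  · intro x
    by_contra hx
    have hx' : ∀ k, (Z k).1.π x ^ ell x ≠ 1 := by
      intro k hk
      apply hx
      apply (le_iSup (fun k => (Z k).1.π.ker) k)
      rw [MonoidHom.mem_ker, map_pow]
      exact hk
    have hlen : ∀ k, (Z (k + 1)).1.len x < (Z k).1.len x := by
      intro k
      rcases (hZs k).contr x with h | h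
      · exact absurd h (hx' (k + 1))
      · exact h
    have hlen' : ∀ k, (Z k).1.len x + k ≤ (Z 0).1.len x := by
      intro k
      induction k with
      | zero => simp
      | succ k ih =>
        have := hlen k
        omega
    have := hlen' ((Z 0).1.len x + 1)
    omega
  · intro y hy m hm
    rw [Subgroup.mem_iSup_of_directed hdir] at hm
    obtain ⟨k, hk⟩ := hm
    have h1 : (Z 1).1.π y ^ ell y = 1 := (hZs 0).ord' y hy
    have hpos : 0 < ell y := (hE.odd y).pos
    have h2 : ∀ k, (Z (1 + k)).1.π y ^ m = 1 → (Z 1).1.π y ^ m = 1 := by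
      intro k
      induction k with
      | zero => exact fun h => h
      | succ k ih =>
        intro h
        apply ih
        rw [← map_pow] at h ⊢
        refine (hZs (1 + k)).inj (y ^ m) (ell y) hpos ?_ h
        have h5 : y ^ ell y ∈ (Z (1 + k)).1.π.ker :=
          hmono (by omega : 1 ≤ 1 + k) (by rw [MonoidHom.mem_ker, map_pow]; exact h1)
        have h4 : (Z (1 + k)).1.π y ^ ell y = 1 := by
          rw [MonoidHom.mem_ker, map_pow] at h5
          exact h5
        rw [map_pow, ← pow_mul, mul_comm, pow_mul, h4, one_pow]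
    have h3 : (Z 1).1.π y ^ m = 1 := by
      rw [MonoidHom.mem_ker, map_pow] at hk
      rcases k with _ | k
      · rw [← map_pow] at hk ⊢
        exact (hZs 0).mono _ hk
      · exact h2 k (by rwa [add_comm 1 k])
    exact (hZs 0).ord y hy m h3

/-- the first object: the free group acting on its Cayley tree -/
def X0 (p : Par) (α : Type) [DecidableEq α] : Obj p (FreeGroup α) where
  G := FreeGroup α
  V := FreeGroup α
  M := wm α
  hyp := base p
  π := MonoidHom.id _
  surj := Function.surjective_id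
  x0 := 1

/-- the exponent sum of a generator -/
noncomputable def cnt {α : Type} [DecidableEq α] (j : α) : FreeGroup α →* Multiplicative ℤ :=
  FreeGroup.lift fun i => if i = j then Multiplicative.ofAdd 1 else 1

lemma of_primitive {α : Type} [DecidableEq α] (j : α) (b : FreeGroup α)
    (hb : FreeGroup.of j ∈ Subgroup.zpowers b) : b ∈ Subgroup.zpowers (FreeGroup.of j) := by
  obtain ⟨s, hs⟩ := Subgroup.mem_zpowers_iff.mp hb
  have h1 := congrArg (cnt j) hs
  rw [map_zpow] at h1
  have h2 : cnt j (FreeGroup.of j) = Multiplicative.ofAdd 1 := by simp [cnt]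
  rw [h2] at h1
  have h3 := congrArg Multiplicative.toAdd h1
  rw [toAdd_zpow, toAdd_ofAdd] at h3
  have h4 : IsUnit s := by
    have h5 : s * Multiplicative.toAdd (cnt j b) = 1 := by simpa using h3
    exact IsUnit.of_mul_eq_one _ h5
  rcases Int.isUnit_iff.mp h4 with h5 | h5
  · rw [h5, zpow_one] at hs
    rw [← hs]
    exact Subgroup.mem_zpowers _
  · rw [h5, zpow_neg_one] at hs
    rw [← hs]
    exact Subgroup.mem_zpowers_iff.mpr ⟨-1, by group⟩

lemma X0_prim {α : Type} [DecidableEq α] (p : Par) (j : α) : (X0 p α).prim (FreeGroup.of j) := by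
  refine ⟨?_, ⟨(1 : FreeGroup α), ?_⟩, ?_⟩
  · intro m hm h
    have h1 : (FreeGroup.of j : FreeGroup α) ^ m = 1 := h
    have h2 := FreeGroup.norm_of_pow j m
    rw [h1, FreeGroup.norm_one] at h2
    omega
  · show (wm α).d 1 (FreeGroup.of j • 1) ≤ p.L
    rw [wm_d]
    simp only [inv_one, one_mul, smul_eq_mul, mul_one, FreeGroup.norm_of]
    have h1 := p.hL
    have h2 := p.hΔ
    have h3 := p.hκ
    have h4 := p.hδ
    have h5 := p.hq
    have h6 : 1 ≤ p.κ := by
      calc 1 ≤ 10 ^ 20 * 1 * 1 := by norm_num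
          _ ≤ 10 ^ 20 * p.δ ^ 2 * p.q := by
            apply Nat.mul_le_mul
            · apply Nat.mul_le_mul le_rfl
              exact Nat.one_le_pow _ _ (by omega)
            · omega
          _ ≤ p.κ := h3
    have h7 : 1 ≤ p.κ ^ 5 := Nat.one_le_pow _ _ h6
    omega
  · exact fun b hb => of_primitive j b hb

/-- torsion freeness of the free group, in the form needed -/
lemma X0_tors {α : Type} [DecidableEq α] (p : Par) (ell : FreeGroup α → ℕ) :
    (X0 p α).TorsOK ell := by
  intro x m hm h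
  have h1 : (x : FreeGroup α) ^ m = 1 := h
  have h2 : x = 1 := by
    by_contra h3
    have := norm_pow_ge h3 m
    rw [h1, FreeGroup.norm_one] at this
    omega
  show (x : FreeGroup α) ^ ell x = 1
  rw [h2, one_pow]

/-- the limit theorem in the form of module LEVELS -/
theorem lt_of_step (hstep : StepThm p (FreeGroup ℕ)) : LT (1000 * p.P) := by
  intro N ell hE
  obtain ⟨N', h1, _, h3, h4, h5⟩ := limit hstep (X := X0 p ℕ) hE
    (fun x hx => by
      have : x = 1 := hx
      rw [this]
      exact N.one_mem) (X0_tors p ell)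
  exact ⟨N', h1, h3, h4, fun j i hi => h5 _ (X0_prim p j) i hi⟩

/-- parameters -/
def par0 : Par where
  δ := 1000
  q := 10 ^ 14
  κ := 10 ^ 40
  Δ := 10 ^ 200
  L := 10 ^ 203
  hδ := le_rfl
  hq := le_rfl
  hκ := by norm_num
  hΔ := by norm_num
  hL := by norm_num

/-- **The theorem**, from the step theorem. -/
theorem img_of_step (hstep : ∀ p : Par, StepThm p (FreeGroup ℕ)) (U : Ultrafilter ℕ) :
    Img (FreeGroup ℕ) U :=
  levels (lt_of_step (hstep par0)) U

end Pool.Agent.Helper5.Burn
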