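import Pool.Agent.Helper85.Burn.CaseII
import Pool.Agent.Helper5.Burn.Limit

/-!
Module STEP of the graded Burnside project: the step theorem.
-/

set_option autoImplicit false

namespace Pool.Agent.Helper5.Burn

open Pool.Agent.Helper85.Burn

section basics
variable {G V : Type} [Group G] [MulAction G V] {M : GMet V} {p : Par}

/-- an element with bounded displacement somewhere along its powers, of finite order, has a point of
small displacement -/
lemma fin_disp (hH : Hyp p G V M) {g : G} {m : ℕ} (hm : 0 < m) (hg : g ^ m = 1) :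
    ∃ x : V, M.d x (g • x) ≤ 10 * p.δ := by
  classical
  by_contra hcon
  push Not at hcon
  -- a minimiser of the displacement
  have hex : ∃ k : ℕ, ∃ x : V, M.d x (g • x) = k := by
    obtain ⟨x⟩ := hH.ne
    exact ⟨_, x, rfl⟩
  obtain ⟨x, hx⟩ := Nat.find_spec hex
  have hmin : ∀ z, M.d x (g • x) ≤ M.d z (g • z) := by
    intro z
    rw [hx]
    exact Nat.find_min' hex ⟨z, rfl⟩
  have hδ := p.hδ
  have h1 := hcon x
  have h2 := min_disp hH.hyp hH.isom hmin h1 (by omega)
  have h3 := (chain hH.hyp hH.isom h2 (by omega)).1 m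
  rw [hg, one_smul, M.self] at h3
  have h4 : 0 < M.d x (g • x) - 4 * p.δ - 2 * p.δ := by omega
  have h5 := Nat.mul_pos hm h4
  omega

lemma inf_of_dich {g : G} (hH : Hyp p G V M) (h : ∀ (x : V) (m : ℕ), m ≤ p.q * M.d x (g ^ m • x)) :
    Inf g := by
  intro m hm h1
  obtain ⟨x⟩ := hH.ne
  have h2 := h x m
  rw [h1, one_smul, M.self] at h2
  omega

/-- a short primitive element is a generator of a line or its inverse -/
lemma prim_line {C : Type} [MulAction G C] (S : Lines G V C M p) {a : G} (ha : Inf a)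
    (hs : ∃ x, M.d x (a • x) ≤ p.L) (hm : ∀ b, a ∈ Subgroup.zpowers b → b ∈ Subgroup.zpowers a) :
    ∃ (w : C) (s t : ℤ), a = S.ρ w ^ s ∧ S.ρ w = a ^ t ∧ s * t = 1 := by
  obtain ⟨w, hw⟩ := S.catches a ha hs
  obtain ⟨s, hs⟩ := Subgroup.mem_zpowers_iff.mp hw
  obtain ⟨t, ht⟩ := Subgroup.mem_zpowers_iff.mp (hm _ hw)
  refine ⟨w, s, t, hs.symm, ht.symm, ?_⟩
  have h1 : a ^ (t * s) = a := by
    rw [zpow_mul, ht, hs]
  have h2 : a ^ (t * s - 1) = 1 := by
    rw [zpow_sub, h1, zpow_one, mul_inv_cancel]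
  by_contra h3
  have h4 : t * s - 1 ≠ 0 := by
    intro h5
    apply h3
    rw [mul_comm]
    omega
  have h5 : a ^ ((t * s - 1).natAbs) = 1 := by
    rcases Int.natAbs_eq (t * s - 1) with h6 | h6
    · rw [h6, zpow_natCast] at h2
      exact h2
    · rw [h6, zpow_neg, zpow_natCast, inv_eq_one] at h2
      exact h2
  exact ha _ (Int.natAbs_pos.mpr h4) h5

end basics

variable {p : Par} {F : Type} [Group F]

section expo
variable {X : Obj p F} {N : Subgroup F} {ell : F → ℕ}

lemma ell_congr (hE : ExpData (1000 * p.P) N ell) {x y : F} (h : x⁻¹ * y ∈ N) : ell x = ell y := by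
  have := hE.inv x _ h
  rw [mul_inv_cancel_left] at this
  exact this.symm

lemma ell_congr' (hE : ExpData (1000 * p.P) N ell) (hk : ∀ x, X.π x = 1 → x ∈ N) {x y : F}
    (h : X.π x = X.π y) : ell x = ell y := by
  apply ell_congr hE
  apply hk
  rw [map_mul, map_inv, h, inv_mul_cancel]

end expo

/-- existence of the data of a step -/
theorem exists_full (X : Obj p F) {N : Subgroup F} {ell : F → ℕ}
    (hE : ExpData (1000 * p.P) N ell) (hk : ∀ x, X.π x = 1 → x ∈ N) :
    ∃ (C : Type) (_ : MulAction X.G C) (S : Lines X.G X.V C X.M p) (M' : GMet (X.V ⊕ C))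
      (n : X.V ⊕ C → ℕ) (_ : Full p X.G X.V C X.M S M' n),
      ∀ (w : C) (y : F), X.π y = S.ρ w → n (Sum.inr w) = ell y := by
  obtain ⟨C, actC, ⟨S⟩⟩ := exists_lines X.hyp
  obtain ⟨M', hM'⟩ := exists_cone X.M S.y p.R (by have := p.R_pos; omega) X.hyp.ne
  have D : Coned p X.G X.V C X.M S M' := ⟨X.hyp, hM'⟩
  let lift : X.G → F := Function.surjInv X.surj
  have hlift : ∀ g, X.π (lift g) = g := Function.surjInv_eq X.surj
  let n : X.V ⊕ C → ℕ := Sum.elim (fun _ => 1) (fun w => ell (lift (S.ρ w)))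
  have h1 : ∀ w, Odd (n (Sum.inr w)) := fun w => hE.odd _
  have h2 : ∀ w, 1000 * p.P ≤ n (Sum.inr w) := fun w => hE.big _
  have h3 : ∀ (g : X.G) w, n (Sum.inr (g • w)) = n (Sum.inr w) := by
    intro g w
    show ell (lift (S.ρ (g • w))) = ell (lift (S.ρ w))
    rw [← hE.conj (lift (S.ρ w)) (lift g)]
    apply ell_congr' hE hk
    rw [hlift, S.ρ_smul, map_mul, map_mul, map_inv, hlift, hlift]
  obtain ⟨A, hAC, hAρ, hApf, hAθ⟩ := D.exists_rot h1 h2 h3
  refine ⟨C, actC, S, M', n, ⟨D, A, hAC, hAρ, hApf, hAθ⟩, ?_⟩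
  intro w y hy
  show ell (lift (S.ρ w)) = ell y
  apply ell_congr' hE hk
  rw [hlift, hy]

/-- **The step theorem.** -/
theorem stepThm (p : Par) (F : Type) [Group F] : StepThm p F := by
  classical
  intro X N ell hE hk htors
  obtain ⟨C, actC, S, M', n, U, hn⟩ := exists_full X hE hk
  have hP : p.P = p.q * (4 * p.P0 + p.L) + 1 := rfl
  have hsz := p.sizes
  -- the next object
  let K : Subgroup X.G := U.A.K
  let X' : Obj p F := {
    G := X.G ⧸ U.A.K
    V := VQ (V := X.V ⊕ C) U.A.K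
    M := U.A.qm
    hyp := U.hyp
    π := (QuotientGroup.mk' U.A.K).comp X.π
    surj := (QuotientGroup.mk'_surjective U.A.K).comp X.surj
    x0 := VQ.mk U.A.K (Sum.inl X.x0) }
  have hπ : ∀ x, X'.π x = (QuotientGroup.mk (X.π x) : X.G ⧸ U.A.K) := fun x => rfl
  have hπ1 : ∀ x, X'.π x = 1 ↔ X.π x ∈ U.A.K := by
    intro x
    rw [hπ]
    exact QuotientGroup.eq_one_iff _
  have hmono : ∀ x, X.π x = 1 → X'.π x = 1 := by
    intro x hx
    rw [hπ1, hx]
    exact U.A.K.one_mem
  -- `K` is in the image of `N`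
  have hKN : U.A.K ≤ N.map X.π := by
    unfold Rot.K
    rw [Subgroup.closure_le]
    rintro g ⟨w, hw, rfl⟩
    rw [U.hC] at hw
    obtain ⟨c, rfl⟩ := hw
    obtain ⟨y, hy⟩ := X.surj (S.ρ c)
    refine ⟨y ^ ell y, hE.kill y, ?_⟩
    rw [map_pow, hy, U.hρ, hn c y hy]
  have hle : ∀ x, X'.π x = 1 → x ∈ N := by
    intro x hx
    obtain ⟨k, hkN, hkx⟩ := hKN ((hπ1 x).mp hx)
    have h1 : k⁻¹ * x ∈ N := by
      apply hk
      rw [map_mul, map_inv, hkx, inv_mul_cancel]
    have h2 := N.mul_mem hkN h1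
    rwa [mul_inv_cancel_left] at h2
  have hcong : ∀ x y, X'.π x = X'.π y → ell x = ell y := by
    intro x y h
    apply ell_congr hE
    apply hle
    rw [map_mul, map_inv, h, inv_mul_cancel]
  -- powers of the rotations
  have hrot : ∀ (w : C) (s : ℤ) (x : F), X'.π x = (QuotientGroup.mk (S.ρ w ^ s) : X.G ⧸ U.A.K) →
      X'.π x ^ ell x = 1 := by
    intro w s x hx
    obtain ⟨y, hy⟩ := X.surj (S.ρ w)
    have h1 : X'.π x = X'.π (y ^ s) := by
      rw [hx, hπ, map_zpow, hy]
    have h2 : ell y ∣ ell x := by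
      rw [hcong x _ h1]
      exact hE.dvd y s
    have h3 : X'.π y ^ ell y = 1 := by
      rw [← map_pow, hπ1, map_pow, hy, ← hn w y hy]
      apply Subgroup.subset_closure
      exact ⟨Sum.inr w, U.inr_mem w, by rw [U.hρ]⟩
    obtain ⟨t, ht⟩ := h2
    have h4 : (X'.π y ^ s) ^ ell y = 1 := by
      rw [← zpow_natCast, ← zpow_mul, mul_comm s, zpow_mul, zpow_natCast, h3, one_zpow]
    rw [h1, map_zpow, ht, pow_mul, h4, one_pow]
  -- small displacement and in `K` implies trivial
  have hsmall : ∀ (g : X.G) (v : X.V), X.M.d v (g • v) ≤ p.L → g ∈ U.A.K → g = 1 := by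
    intro g v hv hg
    by_contra hne
    have h1 := U.far_K hg hne v
    have h2 : p.P0 = 5000 * p.R := rfl
    have h3 : p.R = 10 ^ 6 * p.L := rfl
    have h4 := p.R_pos
    omega
  refine ⟨X', ⟨hmono, hle, ?_, ?_, ?_, ?_, ?_⟩⟩
  · -- torsion
    intro x m hm hx
    rcases U.trich (X'.π x) with ⟨g', hg', m', hm', hgm⟩ | ⟨w, s, hws⟩ | h
    · obtain ⟨y, hy⟩ := X.surj g'
      have h1 : X'.π x = X'.π y := by rw [hπ y, hy, hg']
      have h2 : X.π y ^ ell y = 1 := htors y m' hm'.pos (by rw [hy]; exact hgm)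
      rw [h1, hcong x y h1, ← map_pow]
      apply hmono
      rw [map_pow]
      exact h2
    · exact hrot w s x hws.symm
    · exfalso
      have h1 := h X'.x0 m
      have h2 : X'.π x ^ m • X'.x0 = X'.x0 := by rw [hx, one_smul]
      have h3 : U.A.qm.d X'.x0 (X'.π x ^ m • X'.x0) = 0 := by
        rw [h2]
        exact U.A.qm.self _
      rw [h3] at h1
      omega
  · -- finite order elements survive
    intro x m hm hx hx'
    obtain ⟨v, hv⟩ := fin_disp X.hyp hm hx
    refine hsmall _ v ?_ ((hπ1 x).mp hx')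
    omega
  · -- the order of a primitive element
    rintro y ⟨hy1, hy2, hy3⟩ m hm
    obtain ⟨w, s, t, hs, ht, hst⟩ := prim_line S hy1 hy2 hy3
    have h1 : U.A.ρ (Sum.inr w) ^ (s * (m : ℤ)) ∈ U.A.K := by
      rw [U.hρ, zpow_mul, ← hs, zpow_natCast, ← map_pow]
      rw [← map_pow] at hm
      exact (hπ1 _).mp hm
    have h2 := Rot.ρ_order (U.inr_mem w) _ h1
    obtain ⟨z, hz⟩ := X.surj (S.ρ w)
    have h3 : n (Sum.inr w) = ell z := hn w z hz
    have h4 : ell y ∣ ell z := by
      have h5 : ell z = ell (y ^ t) := ell_congr' hE hk (by rw [hz, map_zpow, ht])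
      rw [h5]
      exact hE.dvd y t
    have h5 : (ell y : ℤ) ∣ s * (m : ℤ) := by
      refine dvd_trans ?_ h2
      rw [h3]
      exact_mod_cast h4
    have h6 : (m : ℤ) = t * (s * (m : ℤ)) := by
      rw [← mul_assoc, mul_comm t s, hst, one_mul]
    have h7 : (ell y : ℤ) ∣ (m : ℤ) := by
      rw [h6]
      exact Dvd.dvd.mul_left h5 t
    exact_mod_cast h7
  · rintro y ⟨hy1, hy2, hy3⟩
    obtain ⟨w, s, t, hs, ht, hst⟩ := prim_line S hy1 hy2 hy3
    exact hrot w s y (by rw [hπ, hs])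
  · -- contraction
    intro x
    by_cases hL : X.len x ≤ p.L
    · left
      rcases X.hyp.dich (X.π x) with ⟨m, hm, hxm⟩ | h
      · rw [← map_pow]
        apply hmono
        rw [map_pow]
        exact htors x m hm.pos hxm
      · obtain ⟨w, hw⟩ := S.catches (X.π x) (inf_of_dich X.hyp h) ⟨X.x0, hL⟩
        obtain ⟨s, hs⟩ := Subgroup.mem_zpowers_iff.mp hw
        exact hrot w s x (by rw [hπ, hs])
    · right
      have h1 : X'.len x ≤ M'.d (Sum.inl X.x0) (Sum.inl (X.π x • X.x0)) := by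
        have h2 : X'.π x • X'.x0 = VQ.mk U.A.K (Sum.inl (X.π x • X.x0)) := by
          have h3 := VQ.mk_smul (K := U.A.K) (X.π x) (Sum.inl X.x0 : X.V ⊕ C)
          exact h3.symm
        show U.A.qm.d X'.x0 (X'.π x • X'.x0) ≤ _
        rw [h2]
        exact Rot.qm_le _ _
      have hR := p.R_pos
      have h2 : M'.d (Sum.inl X.x0) (Sum.inl (X.π x • X.x0)) ≤ X.len x / p.R + 1 := by
        apply U.D.d_le
        have h3 := Nat.lt_div_mul_add (a := X.len x) hR
        show X.len x ≤ _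
        rw [add_mul, one_mul]
        omega
      have h3 : X.len x / p.R + 1 < X.len x := by
        have h4 : p.R = 10 ^ 6 * p.L := rfl
        have h5 : X.len x / p.R ≤ X.len x / 2 := Nat.div_le_div_left (by omega) (by omega)
        omega
      omega

/-- For every ultrafilter, the ultrapower of the free group of countable rank has a homomorphic image
which is a torsion group of unbounded exponent whose only divisible subgroup is trivial. -/
theorem img (U : Ultrafilter ℕ) : Img (FreeGroup ℕ) U := img_of_step (fun p => stepThm p _) U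

/-- **Negative answer to Q1.** -/
theorem negQ1 : NegQ1 := Img.negQ1 fun U _ => img U

end Pool.Agent.Helper5.Burn
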